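import Pool.Agent.helper62.VD.SpecE

/-!
# Row vde:EER of MP_07c750_an (ergodicity, abstract)
-/

set_option autoImplicit false

open MeasureTheory Filter Set Topology
open scoped ENNReal

namespace Pool.Agent.VDE

noncomputable section

section

variable {Γ S : Type} [Group Γ] [TopologicalSpace S] [MeasurableSpace S] [MulAction Γ S]
  {μ : Measure S} {F0 K : Set S} {d : S → S → ℝ} {f : ℝ → S → S} {h : S → ℝ}

theorem EER_bound (hT : TH Γ S h) (T : ℝ) (hT0 : 0 < T) (x : S) : |av f h T x| ≤ 1 := by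
  unfold av
  rw [abs_mul, abs_of_pos (inv_pos.2 hT0)]
  have h1 : ‖∫ t in (0 : ℝ)..T, h (f t x)‖ ≤ 1 * |T - 0| :=
    intervalIntegral.norm_integral_le_of_norm_le_const fun t _ => by
      rw [Real.norm_eq_abs]
      exact hT.bd _
  rw [Real.norm_eq_abs, sub_zero, one_mul, abs_of_pos hT0] at h1
  calc T⁻¹ * |∫ t in (0 : ℝ)..T, h (f t x)| ≤ T⁻¹ * T := by
        exact mul_le_mul_of_nonneg_left h1 (inv_pos.2 hT0).le
    _ = 1 := inv_mul_cancel₀ hT0.ne'

theorem EER_inv (hB : BF Γ S μ F0 K d f) (hT : TH Γ S h) (T : ℝ) (γ : Γ) (x : S) :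
    av f h T (γ • x) = av f h T x := by
  unfold av
  simp only [hB.fe, hT.inv]

theorem EER_const (ν : Measure S) (u : S → ℝ) (hb : ∀ x, |u x| ≤ 1)
    (h : ∀ p q : ℝ, p < q → ν {x | u x ≤ p} = 0 ∨ ν {x | q ≤ u x} = 0) : ∃ c : ℝ, ∀ᵐ x ∂ν, u x = c := by
  by_cases hν : ν = 0
  · refine ⟨0, ?_⟩
    rw [hν, ae_iff]
    simp
  obtain ⟨A, hA⟩ : ∃ A : Set ℝ, ∀ p, p ∈ A ↔ ν {x | u x ≤ p} = 0 := ⟨{p | ν {x | u x ≤ p} = 0}, fun p => Iff.rfl⟩
  have hne : (-2 : ℝ) ∈ A := by
    rw [hA]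
    have h1 : {x | u x ≤ -2} = ∅ := by
      ext x
      simp only [mem_ofPred_eq, mem_empty_iff_false, iff_false, not_le]
      have := (abs_le.1 (hb x)).1
      linarith
    rw [h1, measure_empty]
  have hbd : BddAbove A := by
    refine ⟨1, fun p hp => ?_⟩
    by_contra h1
    push Not at h1
    rw [hA] at hp
    have h2 : {x | u x ≤ p} = univ := by
      ext x
      simp only [mem_ofPred_eq, mem_univ, iff_true]
      have := (abs_le.1 (hb x)).2
      linarith
    rw [h2] at hp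
    exact hν (Measure.measure_univ_eq_zero.1 hp)
  refine ⟨sSup A, ?_⟩
  have k1 : ∀ k : ℕ, ν {x | u x ≤ sSup A - 1 / ((k : ℝ) + 1)} = 0 := by
    intro k
    have h1 : (0 : ℝ) < 1 / ((k : ℝ) + 1) := by positivity
    obtain ⟨p, hp, h2⟩ := exists_lt_of_lt_csSup ⟨_, hne⟩ (show sSup A - 1 / ((k : ℝ) + 1) < sSup A by linarith)
    rw [hA] at hp
    refine measure_mono_null (fun x hx => ?_) hp
    exact le_trans (show u x ≤ sSup A - 1 / ((k : ℝ) + 1) from hx) h2.le
  have k2 : ∀ k : ℕ, ν {x | sSup A + 1 / ((k : ℝ) + 1) ≤ u x} = 0 := by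
    intro k
    have h1 : (0 : ℝ) < 1 / ((k : ℝ) + 1) := by positivity
    rcases h (sSup A + 1 / ((k : ℝ) + 1) / 2) (sSup A + 1 / ((k : ℝ) + 1)) (by linarith) with h2 | h2
    · exfalso
      have := le_csSup hbd ((hA _).2 h2)
      linarith
    · exact h2
  rw [ae_iff]
  refine measure_mono_null (t := ⋃ k : ℕ, ({x | u x ≤ sSup A - 1 / ((k : ℝ) + 1)} ∪ {x | sSup A + 1 / ((k : ℝ) + 1) ≤ u x})) ?_ ?_
  · intro x hx
    have h1 : u x ≠ sSup A := hx
    have h2 : 0 < |u x - sSup A| := abs_pos.2 (sub_ne_zero.2 h1)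
    obtain ⟨k, hk⟩ := exists_nat_one_div_lt h2
    refine mem_iUnion.2 ⟨k, ?_⟩
    rcases lt_or_ge (u x) (sSup A) with h3 | h3
    · left
      rw [abs_of_neg (by linarith)] at hk
      show u x ≤ sSup A - 1 / ((k : ℝ) + 1)
      linarith
    · right
      rw [abs_of_nonneg (by linarith)] at hk
      show sSup A + 1 / ((k : ℝ) + 1) ≤ u x
      linarith
  · exact measure_iUnion_null fun k => measure_union_null (k1 k) (k2 k)

/-- the two level sets -/
theorem EER_step [BorelSpace S] (hB : BF Γ S μ F0 K d f) (hT : TH Γ S h) (u : S → ℝ) (hum : Measurable u)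
    (hub : ∀ x, |u x| ≤ 1) (hui : ∀ (γ : Γ) x, u (γ • x) = u x) (hut : ∀ t : ℝ, ∀ᵐ x ∂μ, u (f t x) = u x)
    (hL2 : Tendsto (fun n : ℕ => ∫ x in F0, (av f h n x - u x) ^ 2 ∂μ) atTop (𝓝 0))
    (hcont : ∀ T : ℝ, Continuous (av f h T))
    (hrd : ∀ φ : S → S, Measurable φ → (∀ (γ : Γ) x, φ (γ • x) = γ • φ x) → MeasurePreserving φ μ μ →
      MeasurePreserving (fun x => rd Γ F0 (φ x)) (μ.restrict F0) (μ.restrict F0))
    (hrd4 : ∀ x, ∃ γ : Γ, rd Γ F0 x = γ • x) (η : ℝ) (hη : 0 < η)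
    (hmix : ∃ C N : ℝ, 0 < C ∧ 0 ≤ N ∧ ∀ c T U : ℝ, 0 < T → 0 < U → ∃ t : ℝ, 0 ≤ t ∧ t ≤ N ∧
      μ (F0 ∩ {x | c + 2 * η ≤ av f h T x}) * μ (F0 ∩ {x | av f h U x ≤ c - 2 * η}) ≤
        ENNReal.ofReal C * μ (F0 ∩ {x | c + η ≤ av f h T x ∧ av f h U (f (T + t) x) ≤ c - η})) (c : ℝ) :
    μ (F0 ∩ {x | c + 3 * η ≤ u x}) = 0 ∨ μ (F0 ∩ {x | u x ≤ c - 3 * η}) = 0 := by
  by_contra hcon
  push Not at hcon
  obtain ⟨ha0, hb0⟩ := hcon
  obtain ⟨C, N, hC, hN, hmx⟩ := hmix
  have : IsFiniteMeasure (μ.restrict F0) := ⟨by rw [Measure.restrict_apply_univ]; exact hB.fin⟩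
  have hft : ∀ A : Set S, μ (F0 ∩ A) ≠ ⊤ := fun A => ne_top_of_le_ne_top hB.fin.ne (measure_mono inter_subset_left)
  have hres : ∀ A : Set S, MeasurableSet A → μ.restrict F0 A = μ (F0 ∩ A) := fun A hA => by
    rw [Measure.restrict_apply hA, inter_comm]
  have msub : ∀ A B D : Set S, A ⊆ B ∪ D → (μ (F0 ∩ A)).toReal ≤ (μ (F0 ∩ B)).toReal + (μ (F0 ∩ D)).toReal := by
    intro A B D hABD
    rw [← ENNReal.toReal_add (hft B) (hft D)]
    refine ENNReal.toReal_mono (ENNReal.add_ne_top.2 ⟨hft B, hft D⟩) ?_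
    refine (measure_mono ?_).trans (measure_union_le _ _)
    rw [← inter_union_distrib_left]
    exact inter_subset_inter_right _ hABD
  obtain ⟨a, ha⟩ : ∃ a, a = (μ (F0 ∩ {x | c + 3 * η ≤ u x})).toReal := ⟨_, rfl⟩
  obtain ⟨b, hb⟩ : ∃ b, b = (μ (F0 ∩ {x | u x ≤ c - 3 * η})).toReal := ⟨_, rfl⟩
  have ha1 : 0 < a := by rw [ha]; exact ENNReal.toReal_pos ha0 (hft _)
  have hb1 : 0 < b := by rw [hb]; exact ENNReal.toReal_pos hb0 (hft _)
  have hDm : ∀ n : ℕ, MeasurableSet {x | η ≤ |av f h n x - u x|} := fun n =>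
    measurableSet_le measurable_const ((((hcont n).measurable).sub hum).norm)
  -- Chebyshev
  have hcheb : ∀ n : ℕ, 1 ≤ n → (μ (F0 ∩ {x | η ≤ |av f h n x - u x|})).toReal ≤
      (∫ x in F0, (av f h n x - u x) ^ 2 ∂μ) / η ^ 2 := by
    intro n hn
    have hn' : (0 : ℝ) < n := by exact_mod_cast hn
    have hint : Integrable (fun x => (av f h n x - u x) ^ 2) (μ.restrict F0) := by
      refine Integrable.of_bound ((((hcont n).measurable).sub hum).pow_const 2).aestronglyMeasurable 4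
        (Eventually.of_forall fun x => ?_)
      have h1 := EER_bound hT (f := f) n hn' x
      have h2 := hub x
      rw [Real.norm_eq_abs, abs_of_nonneg (sq_nonneg _)]
      rw [abs_le] at h1 h2
      nlinarith
    have h1 := mul_meas_ge_le_integral_of_nonneg (μ := μ.restrict F0) (f := fun x => (av f h n x - u x) ^ 2)
      (Eventually.of_forall fun x => sq_nonneg _) hint (η ^ 2)
    have h2 : {x | η ^ 2 ≤ (av f h n x - u x) ^ 2} = {x | η ≤ |av f h n x - u x|} := by
      ext x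
      simp only [mem_ofPred_eq]
      rw [← sq_abs (av f h n x - u x)]
      exact pow_le_pow_iff_left₀ hη.le (abs_nonneg _) (by norm_num)
    rw [h2, Measure.real, hres _ (hDm n)] at h1
    rw [le_div_iff₀ (by positivity)]
    linarith
  have hβ : Tendsto (fun n : ℕ => (μ (F0 ∩ {x | η ≤ |av f h n x - u x|})).toReal) atTop (𝓝 0) := by
    have h1 : Tendsto (fun n : ℕ => (∫ x in F0, (av f h n x - u x) ^ 2 ∂μ) / η ^ 2) atTop (𝓝 0) := by
      have h2 := hL2.div_const (η ^ 2)
      rw [zero_div] at h2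
      exact h2
    refine squeeze_zero' (Eventually.of_forall fun n => ENNReal.toReal_nonneg) ?_ h1
    filter_upwards [eventually_ge_atTop 1] with n hn
    exact hcheb n hn
  obtain ⟨e, he⟩ : ∃ e, e = min (min (a / 2) (b / 2)) (a * b / (8 * C)) := ⟨_, rfl⟩
  have he0 : 0 < e := by
    rw [he]
    refine lt_min (lt_min (by linarith) (by linarith)) (by positivity)
  obtain ⟨n, hn1, hn2⟩ := ((eventually_ge_atTop 1).and (hβ.eventually_lt_const he0)).exists
  have hn' : (0 : ℝ) < n := by exact_mod_cast hn1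
  obtain ⟨t, -, -, ht⟩ := hmx c n n hn' hn'
  obtain ⟨β, hβd⟩ : ∃ β, β = (μ (F0 ∩ {x | η ≤ |av f h n x - u x|})).toReal := ⟨_, rfl⟩
  rw [← hβd] at hn2
  have e1 : e ≤ a / 2 := by rw [he]; exact (min_le_left _ _).trans (min_le_left _ _)
  have e2 : e ≤ b / 2 := by rw [he]; exact (min_le_left _ _).trans (min_le_right _ _)
  have e3 : e ≤ a * b / (8 * C) := by rw [he]; exact min_le_right _ _
  have hA : a ≤ (μ (F0 ∩ {x | c + 2 * η ≤ av f h n x})).toReal + β := by
    rw [ha, hβd]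
    refine msub _ _ _ fun x hx => ?_
    have h1 : c + 3 * η ≤ u x := hx
    by_cases h2 : c + 2 * η ≤ av f h n x
    · exact Or.inl h2
    · right
      show η ≤ |av f h n x - u x|
      rw [abs_of_neg (by linarith)]
      linarith
  have hBb : b ≤ (μ (F0 ∩ {x | av f h n x ≤ c - 2 * η})).toReal + β := by
    rw [hb, hβd]
    refine msub _ _ _ fun x hx => ?_
    have h1 : u x ≤ c - 3 * η := hx
    by_cases h2 : av f h n x ≤ c - 2 * η
    · exact Or.inl h2
    · right
      show η ≤ |av f h n x - u x|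
      rw [abs_of_pos (by linarith)]
      linarith
  -- the mixed set
  have hR : (μ (F0 ∩ {x | c + η ≤ av f h n x ∧ av f h n (f (n + t) x) ≤ c - η})).toReal ≤ 2 * β := by
    have h1 : μ (F0 ∩ {x | η ≤ |av f h n (f (n + t) x) - u (f (n + t) x)|}) = μ (F0 ∩ {x | η ≤ |av f h n x - u x|}) := by
      have hfm : Measurable (f (n + t)) := (hB.fcn.comp (continuous_const.prodMk continuous_id)).measurable
      have h2 := hrd (f (n + t)) hfm (fun γ x => hB.fe γ (n + t) x) (hB.fm (n + t))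
      have h3 := h2.measure_preimage (hDm n).nullMeasurableSet
      have h4 : (fun x => rd Γ F0 (f (n + t) x)) ⁻¹' {x | η ≤ |av f h n x - u x|} =
          {x | η ≤ |av f h n (f (n + t) x) - u (f (n + t) x)|} := by
        ext x
        show η ≤ |av f h n (rd Γ F0 (f (n + t) x)) - u (rd Γ F0 (f (n + t) x))| ↔ _
        obtain ⟨γ, hγ⟩ := hrd4 (f (n + t) x)
        rw [hγ, EER_inv hB hT, hui]
        exact Iff.rfl
      rw [h4, hres _ (hDm n), hres] at h3
      · exact h3
      · exact measurableSet_le measurable_const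
          (((((hcont n).measurable).comp hfm).sub (hum.comp hfm)).norm)
    have h2 : μ (F0 ∩ {x | c + η ≤ av f h n x ∧ av f h n (f (n + t) x) ≤ c - η}) ≤
        μ (F0 ∩ {x | η ≤ |av f h n x - u x|}) + μ (F0 ∩ {x | η ≤ |av f h n (f (n + t) x) - u (f (n + t) x)|}) := by
      refine le_trans (measure_mono_ae ?_) (measure_union_le _ _)
      filter_upwards [hut (n + t)] with x hx hx'
      obtain ⟨h3, h4, h5⟩ := hx'
      by_cases h6 : η ≤ |av f h n x - u x|
      · exact Or.inl ⟨h3, h6⟩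
      · right
        refine ⟨h3, ?_⟩
        show η ≤ |av f h n (f (n + t) x) - u (f (n + t) x)|
        rw [hx]
        push Not at h6
        rw [abs_lt] at h6
        have h7 : av f h n (f (n + t) x) - u x ≤ -η := by
          have := h6.2
          linarith
        rw [abs_of_neg (by linarith)]
        linarith
    rw [h1] at h2
    have h3 := ENNReal.toReal_mono (ENNReal.add_ne_top.2 ⟨hft _, hft _⟩) h2
    rw [ENNReal.toReal_add (hft _) (hft _), ← hβd] at h3
    linarith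
  have hAB := ENNReal.toReal_mono (ENNReal.mul_ne_top ENNReal.ofReal_ne_top (hft _)) ht
  rw [ENNReal.toReal_mul, ENNReal.toReal_mul, ENNReal.toReal_ofReal hC.le] at hAB
  have h1 : a / 2 ≤ (μ (F0 ∩ {x | c + 2 * η ≤ av f h n x})).toReal := by linarith
  have h2 : b / 2 ≤ (μ (F0 ∩ {x | av f h n x ≤ c - 2 * η})).toReal := by linarith
  have h3 : a / 2 * (b / 2) ≤ (μ (F0 ∩ {x | c + 2 * η ≤ av f h n x})).toReal *
      (μ (F0 ∩ {x | av f h n x ≤ c - 2 * η})).toReal :=
    mul_le_mul h1 h2 (by linarith) ENNReal.toReal_nonneg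
  have h4 := mul_le_mul_of_nonneg_left hR hC.le
  have h5 : C * (2 * β) < C * (2 * (a * b / (8 * C))) :=
    mul_lt_mul_of_pos_left (by linarith) hC
  have h6 : C * (2 * (a * b / (8 * C))) = a / 2 * (b / 2) := by
    field_simp
    ring
  linarith

/-- the mean of the averages -/
theorem EER_mean [SecondCountableTopology S] [BorelSpace S] (hB : BF Γ S μ F0 K d f) (hT : TH Γ S h)
    (hrd : ∀ φ : S → S, Measurable φ → (∀ (γ : Γ) x, φ (γ • x) = γ • φ x) → MeasurePreserving φ μ μ →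
      MeasurePreserving (fun x => rd Γ F0 (φ x)) (μ.restrict F0) (μ.restrict F0))
    (hrd4 : ∀ x, ∃ γ : Γ, rd Γ F0 x = γ • x) (n : ℝ) (hn : 0 < n) :
    ∫ x in F0, av f h n x ∂μ = ∫ x in F0, h x ∂μ := by
  have : IsFiniteMeasure (μ.restrict F0) := ⟨by rw [Measure.restrict_apply_univ]; exact hB.fin⟩
  have hfm : ∀ s, Continuous (f s) := fun s => hB.fcn.comp (continuous_const.prodMk continuous_id)
  have h1 : ∀ s : ℝ, ∫ x in F0, h (f s x) ∂μ = ∫ x in F0, h x ∂μ := by
    intro s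
    have h2 := hrd (f s) (hfm s).measurable (fun γ x => hB.fe γ s x) (hB.fm s)
    have h3 : ∀ x, h (f s x) = h (rd Γ F0 (f s x)) := by
      intro x
      obtain ⟨γ, hγ⟩ := hrd4 (f s x)
      rw [hγ, hT.inv]
    have h4 : ∫ x in F0, h (rd Γ F0 (f s x)) ∂μ = ∫ x in F0, h x ∂μ := by
      have h5 := MeasureTheory.integral_map (μ := μ.restrict F0) (φ := fun x => rd Γ F0 (f s x)) h2.measurable.aemeasurable
        (f := h) (by
          rw [h2.map_eq]
          exact hT.cont.measurable.aestronglyMeasurable)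
      rw [h2.map_eq] at h5
      exact h5.symm
    rw [← h4]
    exact integral_congr_ae (Eventually.of_forall fun x => h3 x)
  have h6 : ∫ x in F0, (∫ t in (0 : ℝ)..n, h (f t x)) ∂μ = ∫ t in (0 : ℝ)..n, (∫ x in F0, h (f t x) ∂μ) := by
    have h7 : ∀ x, (∫ t in (0 : ℝ)..n, h (f t x)) = ∫ t in Ioc 0 n, h (f t x) := fun x =>
      intervalIntegral.integral_of_le hn.le
    have h8 : (∫ t in (0 : ℝ)..n, (∫ x in F0, h (f t x) ∂μ)) = ∫ t in Ioc 0 n, (∫ x in F0, h (f t x) ∂μ) :=
      intervalIntegral.integral_of_le hn.le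
    rw [h8]
    simp only [h7]
    refine MeasureTheory.integral_integral_swap (μ := μ.restrict F0) (ν := volume.restrict (Ioc 0 n))
      (f := fun x t => h (f t x)) ?_
    have h9 : Continuous (Function.uncurry fun (x : S) (t : ℝ) => h (f t x)) :=
      hT.cont.comp (hB.fcn.comp (continuous_snd.prodMk continuous_fst))
    refine Integrable.of_bound (h9.measurable.aestronglyMeasurable) 1 ?_
    refine Eventually.of_forall fun x => ?_
    rw [Real.norm_eq_abs]
    exact hT.bd _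
  unfold av
  rw [integral_const_mul, h6]
  simp only [h1]
  rw [intervalIntegral.integral_const, sub_zero, smul_eq_mul, inv_mul_cancel_left₀ hn.ne']

end

theorem EER_proof (h1 : ERD_stmt) (h2 : EUC_stmt) (h3 : EVN_stmt) (h4 : EMX_stmt) : EER_stmt := by
  intro Γ S _ _ _ _ _ _ μ F0 K d f ε0 hB hε0 hGV hGG h hT
  obtain ⟨-, -, -, hr4, -, -, hr7⟩ := h1 Γ S μ F0 K d f hB
  obtain ⟨-, -, -, -, -, -, hc⟩ := h2 Γ S μ F0 K d f hB
  have hcont : ∀ T : ℝ, Continuous (av f h T) := fun T => hc h T hT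
  obtain ⟨u, hum, hub, hui, hut, hL2⟩ := h3 Γ S μ F0 K d f hB h hT
  have : IsFiniteMeasure (μ.restrict F0) := ⟨by rw [Measure.restrict_apply_univ]; exact hB.fin⟩
  obtain ⟨c0, hc0⟩ : ∃ c : ℝ, ∀ᵐ x ∂(μ.restrict F0), u x = c := by
    refine EER_const _ u hub fun p q hpq => ?_
    have hη : 0 < (q - p) / 6 := by linarith
    have h5 := EER_step hB hT u hum hub hui hut hL2 hcont hr7 hr4 ((q - p) / 6) hη
      (h4 Γ S μ F0 K d f ε0 hB hε0 hGV hGG h ((q - p) / 6) hT hη) ((p + q) / 2)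
    have e1 : (p + q) / 2 + 3 * ((q - p) / 6) = q := by ring
    have e2 : (p + q) / 2 - 3 * ((q - p) / 6) = p := by ring
    rw [e1, e2] at h5
    have m1 : MeasurableSet {x | u x ≤ p} := measurableSet_le hum measurable_const
    have m2 : MeasurableSet {x | q ≤ u x} := measurableSet_le measurable_const hum
    rw [Measure.restrict_apply m1, Measure.restrict_apply m2, inter_comm _ F0, inter_comm _ F0]
    exact h5.symm
  have h5 : Tendsto (fun n : ℕ => ∫ x in F0, (av f h n x - c0) ^ 2 ∂μ) atTop (𝓝 0) := by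
    have h6 : ∀ n : ℕ, ∫ x in F0, (av f h n x - u x) ^ 2 ∂μ = ∫ x in F0, (av f h n x - c0) ^ 2 ∂μ := by
      intro n
      refine integral_congr_ae ?_
      filter_upwards [hc0] with x hx
      rw [hx]
    simpa only [h6] using hL2
  have hI : ∀ n : ℕ, 1 ≤ n → ∀ k : ℝ, Integrable (fun x => (av f h n x - k)) (μ.restrict F0) ∧
      Integrable (fun x => (av f h n x - k) ^ 2) (μ.restrict F0) := by
    intro n hn k
    have hn' : (0 : ℝ) < n := by exact_mod_cast hn
    have hcn : Continuous (fun x => av f h n x - k) := (hcont n).sub continuous_const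
    have hb : ∀ x, |av f h n x - k| ≤ 1 + |k| := fun x =>
      (abs_sub _ _).trans (by have := EER_bound hT (f := f) n hn' x; linarith)
    refine ⟨Integrable.of_bound hcn.measurable.aestronglyMeasurable (1 + |k|) (Eventually.of_forall fun x => ?_),
      Integrable.of_bound (hcn.pow 2).measurable.aestronglyMeasurable ((1 + |k|) ^ 2) (Eventually.of_forall fun x => ?_)⟩
    · rw [Real.norm_eq_abs]
      exact hb x
    · rw [Real.norm_eq_abs, abs_pow]
      exact pow_le_pow_left₀ (abs_nonneg _) (hb x) 2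
  have hle : ∀ n : ℕ, 1 ≤ n → ∫ x in F0, (av f h n x - mn μ F0 h) ^ 2 ∂μ ≤ ∫ x in F0, (av f h n x - c0) ^ 2 ∂μ := by
    intro n hn
    have hn' : (0 : ℝ) < n := by exact_mod_cast hn
    obtain ⟨μ0, hμ0⟩ : ∃ μ0, μ0 = mn μ F0 h := ⟨_, rfl⟩
    rw [← hμ0]
    have h6 : ∀ x, (av f h n x - c0) ^ 2 = ((av f h n x - μ0) ^ 2 + 2 * (μ0 - c0) * (av f h n x - μ0)) + (μ0 - c0) ^ 2 := by
      intro x
      ring
    have h7 : ∫ x in F0, (av f h n x - μ0) ∂μ = 0 := by
      have h8 : Integrable (fun x => av f h n x) (μ.restrict F0) := by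
        have := (hI n hn 0).1
        simpa using this
      rw [integral_sub h8 (integrable_const _), EER_mean hB hT hr7 hr4 n hn', integral_const]
      have h9 : (μ.restrict F0).real univ = (μ F0).toReal := by
        rw [Measure.real, Measure.restrict_apply_univ]
      rw [h9, smul_eq_mul, hμ0]
      unfold mn
      by_cases h10 : (μ F0).toReal = 0
      · rw [h10]
        have h11 : μ F0 = 0 := by
          rcases (ENNReal.toReal_eq_zero_iff _).1 h10 with h12 | h12
          · exact h12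
          · exact absurd h12 hB.fin.ne
        rw [Measure.restrict_eq_zero.2 h11]
        simp
      · rw [mul_div_cancel₀ _ h10, sub_self]
    simp only [h6]
    rw [integral_add, integral_add, integral_const_mul, h7, mul_zero, add_zero]
    · have h13 : 0 ≤ ∫ x in F0, (μ0 - c0) ^ 2 ∂μ := integral_nonneg fun x => sq_nonneg _
      linarith
    · exact (hI n hn μ0).2
    · exact (hI n hn μ0).1.const_mul _
    · exact (hI n hn μ0).2.add ((hI n hn μ0).1.const_mul _)
    · exact integrable_const _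
  refine squeeze_zero' (Eventually.of_forall fun n => integral_nonneg fun x => sq_nonneg _) ?_ h5
  filter_upwards [eventually_ge_atTop 1] with n hn
  exact hle n hn

end

end Pool.Agent.VDE
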